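import Pool.Agent.H87.IS.Stmts
import Pool.Agent.H75.Plc.BEZ

set_option autoImplicit false

namespace Pool.Agent.H87.IS

namespace FCZAux

open MvPolynomial in
theorem fcz_irr (k : Type) [Field k] [Algebra k ℂ] (P Q : MvPolynomial (Fin 2) k)
    (hP : Irreducible P) (hQ : Irreducible Q) (h : ¬ Associated P Q) :
    {x : Fin 2 → ℂ | aeval x P = 0 ∧ aeval x Q = 0}.Finite := by
  classical
  have hr := fun i : Fin 2 => Pool.Agent.H75.Mono.exists_res hP hQ h i
  choose A B r hr0 hAB using hr
  refine (Set.Finite.pi' (fun i : Fin 2 => (r i).rootSet_finite ℂ)).subset ?_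
  rintro x ⟨hxP, hxQ⟩
  simp only [Set.mem_setOf_eq]
  intro i
  rw [Polynomial.mem_rootSet]
  refine ⟨hr0 i, ?_⟩
  have h1 := congrArg (aeval x) (hAB i)
  rw [map_add, map_mul, map_mul, hxP, hxQ, mul_zero, mul_zero, add_zero,
    ← Polynomial.aeval_algHom_apply, aeval_X] at h1
  exact h1.symm

end FCZAux

open MvPolynomial in
theorem FCZ : FCZStmt := by
  intro k _ _ P Q hP hPQ
  classical
  induction Q using WfDvdMonoid.induction_on_irreducible with
  | zero => exact absurd (dvd_zero P) hPQ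
  | unit u hu =>
    have : {x : Fin 2 → ℂ | aeval x P = 0 ∧ aeval x u = 0} = ∅ := by
      ext x
      simp only [Set.mem_setOf_eq, Set.mem_empty_iff_false, iff_false, not_and]
      intro _ h0
      have h1 : IsUnit (aeval x u) := hu.map (aeval x)
      rw [h0] at h1
      exact not_isUnit_zero h1
    rw [this]
    exact Set.finite_empty
  | mul a i ha hi ih =>
    have h1 : ¬ P ∣ a := fun hd => hPQ (Dvd.dvd.mul_left hd i)
    have h2 : ¬ Associated P i := fun hd => hPQ (Dvd.dvd.mul_right hd.dvd a)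
    refine ((FCZAux.fcz_irr k P i hP hi h2).union (ih h1)).subset ?_
    rintro x ⟨hxP, hxQ⟩
    rw [map_mul, mul_eq_zero] at hxQ
    rcases hxQ with hx | hx
    · exact Or.inl ⟨hxP, hx⟩
    · exact Or.inr ⟨hxP, hx⟩

end Pool.Agent.H87.IS
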