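import Pool.Agent.H87.IS.Stmts2
import Pool.Agent.H75.Plc.SARD

set_option autoImplicit false

namespace Pool.Agent.H87.IS

namespace TSBAux

open MvPolynomial

variable {k σ : Type} [Field k]

/-- substitution by polynomials of total degree at most one does not raise the total degree -/
theorem deg_sub {τ : Type} (f : σ → MvPolynomial τ k) (hf : ∀ i, (f i).totalDegree ≤ 1)
    (F : MvPolynomial σ k) : (aeval f F).totalDegree ≤ F.totalDegree := by
  classical
  rw [aeval_def, eval₂]
  refine (totalDegree_finsetSum _ _).trans (Finset.sup_le ?_)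
  intro d hd
  refine (totalDegree_mul _ _).trans ?_
  rw [MvPolynomial.algebraMap_eq, totalDegree_C, zero_add]
  refine (totalDegree_finset_prod _ _).trans ?_
  have h1 : ∑ i ∈ d.support, d i ≤ F.totalDegree := by
    rw [totalDegree]
    exact Finset.le_sup_of_le hd le_rfl
  refine le_trans (Finset.sum_le_sum ?_) h1
  intro i _
  refine (totalDegree_pow _ _).trans ?_
  calc d i * (f i).totalDegree ≤ d i * 1 := Nat.mul_le_mul_left _ (hf i)
    _ = d i := mul_one _

/-- a derivation which kills all values of a substitution kills the result -/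
theorem pd_sub {τ : Type} (i : τ) (f : σ → MvPolynomial τ k) (hf : ∀ l, pderiv i (f l) = 0)
    (F : MvPolynomial σ k) : pderiv i (aeval f F) = 0 := by
  induction F using MvPolynomial.induction_on with
  | C a => rw [← MvPolynomial.algebraMap_eq, AlgHom.commutes, MvPolynomial.algebraMap_eq, pderiv_C]
  | add p q hp hq => rw [map_add, map_add, hp, hq, add_zero]
  | mul_X p l hp =>
    rw [map_mul, aeval_X, pderiv_mul, hp, hf l, zero_mul, mul_zero, add_zero]

variable [Fintype σ] [DecidableEq σ]

/-- the part of `G` of colour `j` -/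
noncomputable def Gj (c : σ → σ) (G : MvPolynomial σ k) (j : σ) : MvPolynomial σ k :=
  aeval (fun i => if c i = j then (X i : MvPolynomial σ k) else 0) G

/-- the part of `G + ∑ C (e i) * X i ^ M` of colour `j` -/
noncomputable def Fj (c : σ → σ) (G : MvPolynomial σ k) (M : ℕ) (e : σ → k) (j : σ) :
    MvPolynomial σ k :=
  Gj c G j + ∑ i with c i = j, C (e i) * X i ^ M

theorem Fj_congr (c : σ → σ) (G : MvPolynomial σ k) (M : ℕ) (e e' : σ → k) (j : σ)
    (h : ∀ i, c i = j → e i = e' i) : Fj c G M e j = Fj c G M e' j := by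
  unfold Fj
  congr 1
  refine Finset.sum_congr rfl ?_
  intro i hi
  rw [h i (Finset.mem_filter.1 hi).2]

theorem pd_Fj (c : σ → σ) (G : MvPolynomial σ k) (M : ℕ) (e : σ → k) (j i : σ) (h : c i ≠ j) :
    pderiv i (Fj c G M e j) = 0 := by
  unfold Fj Gj
  rw [map_add, pd_sub, zero_add, map_sum]
  · refine Finset.sum_eq_zero ?_
    intro l hl
    have hl' := (Finset.mem_filter.1 hl).2
    have hne : l ≠ i := by
      rintro rfl
      exact h hl'
    rw [pderiv_mul, pderiv_C, zero_mul, zero_add, pderiv_pow, pderiv_X_of_ne hne, mul_zero,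
      mul_zero]
  · intro l
    split_ifs with hl
    · have hne : l ≠ i := by
        rintro rfl
        exact h hl
      exact pderiv_X_of_ne hne
    · exact map_zero _

variable [Algebra k ℂ]

theorem ev_Gj (c : σ → σ) (G : MvPolynomial σ k) (j : σ) (x : σ → ℂ) :
    aeval x (Gj c G j) = aeval (fun i => if c i = j then x i else 0) G := by
  unfold Gj
  rw [← AlgHom.comp_apply]
  congr 1
  refine MvPolynomial.algHom_ext ?_
  intro i
  rw [AlgHom.comp_apply, aeval_X, aeval_X]
  split_ifs
  · rw [aeval_X]
  · rw [map_zero]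

theorem ev_Fj_zero (c : σ → σ) (G : MvPolynomial σ k) (M : ℕ) (hM : M ≠ 0) (hG : coeff 0 G = 0)
    (e : σ → k) (j : σ) (x : σ → ℂ) (hx : ∀ i, c i = j → x i = 0) :
    aeval x (Fj c G M e j) = 0 := by
  unfold Fj
  rw [map_add, ev_Gj, map_sum]
  have h1 : (fun i => if c i = j then x i else 0) = 0 := by
    funext i
    split_ifs with h
    · exact hx i h
    · rfl
  rw [h1, MvPolynomial.aeval_zero, MvPolynomial.constantCoeff_eq, hG, map_zero, zero_add]
  refine Finset.sum_eq_zero ?_
  intro i hi
  rw [map_mul, map_pow, aeval_X, hx i (Finset.mem_filter.1 hi).2, zero_pow hM, mul_zero]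

/-- `G` is the sum of its parts -/
theorem sum_Gj (c : σ → σ) (G : MvPolynomial σ k) (hG : coeff 0 G = 0)
    (hB : ∀ m, coeff m G ≠ 0 → Blk c m) : ∑ j, Gj c G j = G := by
  classical
  unfold Gj
  have key : ∀ m ∈ G.support, ∑ j, aeval (fun i => if c i = j then (X i : MvPolynomial σ k) else 0)
      (monomial m (coeff m G)) = monomial m (coeff m G) := by
    intro m hm
    have hm' : coeff m G ≠ 0 := mem_support_iff.1 hm
    have hm0 : m ≠ 0 := by
      rintro rfl
      exact hm' hG
    obtain ⟨i0, hi0⟩ : ∃ i, m i ≠ 0 := by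
      by_contra hcon
      push Not at hcon
      exact hm0 (Finsupp.ext hcon)
    have hall : ∀ i, m i ≠ 0 → c i = c i0 := fun i hi => hB m hm' i i0 hi hi0
    rw [Finset.sum_eq_single (c i0)]
    · rw [aeval_monomial]
      have : m.prod (fun i e => (if c i = c i0 then (X i : MvPolynomial σ k) else 0) ^ e)
          = m.prod (fun i e => X i ^ e) := by
        refine Finset.prod_congr rfl ?_
        intro i hi
        simp only
        rw [if_pos (hall i (Finsupp.mem_support_iff.1 hi))]
      rw [this, MvPolynomial.algebraMap_eq, ← MvPolynomial.monomial_eq]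
    · intro j _ hj
      rw [aeval_monomial]
      have : m.prod (fun i e => (if c i = j then (X i : MvPolynomial σ k) else 0) ^ e) = 0 := by
        refine Finset.prod_eq_zero (Finsupp.mem_support_iff.2 hi0) ?_
        simp only
        rw [if_neg (fun h => hj h.symm), zero_pow hi0]
      rw [this, mul_zero]
    · intro h
      exact absurd (Finset.mem_univ _) h
  conv_rhs => rw [G.as_sum]
  calc ∑ j, aeval (fun i => if c i = j then (X i : MvPolynomial σ k) else 0) G
      = ∑ j, ∑ m ∈ G.support, aeval (fun i => if c i = j then (X i : MvPolynomial σ k) else 0)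
          (monomial m (coeff m G)) := by
        refine Finset.sum_congr rfl ?_
        intro j _
        rw [← map_sum, ← G.as_sum]
    _ = ∑ m ∈ G.support, ∑ j, aeval (fun i => if c i = j then (X i : MvPolynomial σ k) else 0)
          (monomial m (coeff m G)) := Finset.sum_comm
    _ = ∑ m ∈ G.support, monomial m (coeff m G) := Finset.sum_congr rfl key

theorem sum_Fj (c : σ → σ) (G : MvPolynomial σ k) (M : ℕ) (hG : coeff 0 G = 0)
    (hB : ∀ m, coeff m G ≠ 0 → Blk c m) (e : σ → k) :
    ∑ j, Fj c G M e j = G + ∑ i, C (e i) * X i ^ M := by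
  unfold Fj
  rw [Finset.sum_add_distrib, sum_Gj c G hG hB]
  congr 1
  exact Finset.sum_fiberwise _ _ _

/-- the choice of the coefficients of one colour -/
theorem loc [CharZero k] (h2 : BE2Stmt) (h1 : BE1Stmt) (c : σ → σ) (G : MvPolynomial σ k) (M : ℕ)
    (hM : 2 ≤ M) (hG : G.totalDegree < M) (j : σ)
    (hj : (Finset.univ.filter fun i => c i = j).card ≤ 2) (T : Finset k) :
    ∃ e : σ → k, (∀ i, e i ≠ 0) ∧ ∀ v ∈ T, ∀ x : σ → ℂ,
      aeval x (Fj c G M e j) + algebraMap k ℂ v = 0 →
      (∀ i, aeval x (pderiv i (Fj c G M e j)) = 0) → ∀ i, c i = j → x i = 0 := by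
  classical
  have hinf : Infinite k := Infinite.of_injective (fun n : ℕ => (n : k)) Nat.cast_injective
  rcases Nat.lt_or_ge (Finset.univ.filter fun i => c i = j).card 1 with hc | hc
  · refine ⟨fun _ => 1, fun _ => one_ne_zero, ?_⟩
    intro v _ x _ _ i hi
    exfalso
    have : i ∈ Finset.univ.filter fun i => c i = j := Finset.mem_filter.2 ⟨Finset.mem_univ _, hi⟩
    have := Finset.card_pos.2 ⟨i, this⟩
    omega
  rcases Nat.eq_or_lt_of_le hc with hc | hc
  · -- one variable
    obtain ⟨i, hi⟩ := Finset.card_eq_one.1 hc.symm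
    have hmem : ∀ l, c l = j ↔ l = i := by
      intro l
      have : l ∈ (Finset.univ.filter fun i => c i = j) ↔ l ∈ ({i} : Finset σ) := by rw [hi]
      simpa using this
    set g : Polynomial k := aeval (fun l => if l = i then (Polynomial.X : Polynomial k) else 0) G
      with hg
    have hgd : g.natDegree < M := by
      refine lt_of_le_of_lt ?_ hG
      have := MvPolynomial.aeval_natDegree_le (n := 1) G le_rfl
        (fun l => if l = i then (Polynomial.X : Polynomial k) else 0) (by
          intro l
          split_ifs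
          · exact Polynomial.natDegree_X_le
          · simp)
      simpa using this
    have hgv : ∀ v : k, (g + Polynomial.C v).natDegree < M := by
      intro v
      refine lt_of_le_of_lt (Polynomial.natDegree_add_le _ _) ?_
      rw [Polynomial.natDegree_C]
      exact max_lt hgd (by omega)
    have hB : ∀ v : k, ∃ B : Finset k, ∀ c', c' ∉ B → ∀ x : ℂ,
        Polynomial.aeval x ((g + Polynomial.C v) + Polynomial.C c' * Polynomial.X ^ M) = 0 →
        Polynomial.aeval x (Polynomial.derivative
          ((g + Polynomial.C v) + Polynomial.C c' * Polynomial.X ^ M)) = 0 → x = 0 :=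
      fun v => h1 k (g + Polynomial.C v) M hM (hgv v)
    choose B hB using hB
    obtain ⟨a, ha⟩ := Infinite.exists_notMem_finset (insert 0 (T.biUnion B))
    rw [Finset.mem_insert, not_or] at ha
    refine ⟨fun _ => a, fun _ => ha.1, ?_⟩
    have hF : Fj c G M (fun _ => a) j
        = Polynomial.aeval (X i : MvPolynomial σ k) (g + Polynomial.C a * Polynomial.X ^ M) := by
      unfold Fj Gj
      rw [hi, Finset.sum_singleton, map_add, map_mul, map_pow, Polynomial.aeval_X,
        Polynomial.aeval_C, MvPolynomial.algebraMap_eq, hg]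
      congr 1
      rw [← AlgHom.comp_apply]
      congr 1
      refine MvPolynomial.algHom_ext ?_
      intro l
      rw [AlgHom.comp_apply, aeval_X, aeval_X]
      by_cases hl : l = i
      · rw [if_pos ((hmem l).2 hl), if_pos hl, Polynomial.aeval_X, hl]
      · rw [if_neg (fun h => hl ((hmem l).1 h)), if_neg hl, map_zero]
    intro v hv x hx hd l hl
    have hva : a ∉ B v := fun h => ha.2 (Finset.mem_biUnion.2 ⟨v, hv, h⟩)
    rw [(hmem l).1 hl]
    refine hB v a hva (x i) ?_ ?_
    · have e1 : (g + Polynomial.C v) + Polynomial.C a * Polynomial.X ^ M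
          = (g + Polynomial.C a * Polynomial.X ^ M) + Polynomial.C v := by ring
      rw [e1, map_add, Polynomial.aeval_C, ← hx, hF, ← Polynomial.aeval_algHom_apply, aeval_X]
    · have e2 : Polynomial.derivative ((g + Polynomial.C v) + Polynomial.C a * Polynomial.X ^ M)
          = Polynomial.derivative (g + Polynomial.C a * Polynomial.X ^ M) := by
        simp only [Polynomial.derivative_add, Polynomial.derivative_C, add_zero]
      have h3 := hd i
      rw [hF, Derivation.map_aeval, pderiv_X_self, smul_eq_mul, mul_one,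
        ← Polynomial.aeval_algHom_apply, aeval_X] at h3
      rw [e2]
      exact h3
  · -- two variables
    have hc2 : (Finset.univ.filter fun i => c i = j).card = 2 := by omega
    obtain ⟨i, i', hii, hi⟩ := Finset.card_eq_two.1 hc2
    have hmem : ∀ l, c l = j ↔ (l = i ∨ l = i') := by
      intro l
      have : l ∈ (Finset.univ.filter fun i => c i = j) ↔ l ∈ ({i, i'} : Finset σ) := by rw [hi]
      simpa using this
    set f : σ → MvPolynomial (Fin 2) k := fun l => if l = i then X 0 else if l = i' then X 1 else 0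
      with hf
    set g : MvPolynomial (Fin 2) k := aeval f G with hg
    have hgd : g.totalDegree < M := by
      refine lt_of_le_of_lt (deg_sub f ?_ G) hG
      intro l
      rw [hf]
      dsimp only
      split_ifs
      · exact (totalDegree_X _).le
      · exact (totalDegree_X _).le
      · simp
    have hgv : ∀ v : k, (g + C v).totalDegree < M := by
      intro v
      refine lt_of_le_of_lt (totalDegree_add _ _) ?_
      rw [totalDegree_C]
      exact max_lt hgd (by omega)
    have hB : ∀ v : k, ∃ B₁ : Finset k, ∀ c₁, c₁ ∉ B₁ → ∃ B₂ : Finset k, ∀ c₂, c₂ ∉ B₂ →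
        ∀ x : Fin 2 → ℂ, aeval x ((g + C v) + C c₁ * X 0 ^ M + C c₂ * X 1 ^ M) = 0 →
        (∀ i, aeval x (pderiv i ((g + C v) + C c₁ * X 0 ^ M + C c₂ * X 1 ^ M)) = 0) → x = 0 :=
      fun v => h2 k (g + C v) M hM (hgv v)
    choose B₁ hB₁ using hB
    obtain ⟨a, ha⟩ := Infinite.exists_notMem_finset (insert 0 (T.biUnion B₁))
    rw [Finset.mem_insert, not_or] at ha
    have hva : ∀ v ∈ T, a ∉ B₁ v := fun v hv h => ha.2 (Finset.mem_biUnion.2 ⟨v, hv, h⟩)
    have hB2 : ∀ v : T, ∃ B₂ : Finset k, ∀ c₂, c₂ ∉ B₂ →
        ∀ x : Fin 2 → ℂ, aeval x ((g + C (v : k)) + C a * X 0 ^ M + C c₂ * X 1 ^ M) = 0 →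
        (∀ i, aeval x (pderiv i ((g + C (v : k)) + C a * X 0 ^ M + C c₂ * X 1 ^ M)) = 0) →
        x = 0 := fun v => hB₁ v a (hva v v.2)
    choose B₂ hB₂ using hB2
    obtain ⟨b, hb⟩ := Infinite.exists_notMem_finset (insert 0 (T.attach.biUnion B₂))
    rw [Finset.mem_insert, not_or] at hb
    have hvb : ∀ v (hv : v ∈ T), b ∉ B₂ ⟨v, hv⟩ := fun v hv h =>
      hb.2 (Finset.mem_biUnion.2 ⟨⟨v, hv⟩, Finset.mem_attach _ _, h⟩)
    set e : σ → k := fun l => if l = i then a else b with he
    refine ⟨e, ?_, ?_⟩
    · intro l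
      rw [he]
      dsimp only
      split_ifs
      · exact ha.1
      · exact hb.1
    set r : Fin 2 → σ := ![i, i'] with hr
    have hrinj : Function.Injective r := by
      intro p q hpq
      fin_cases p <;> fin_cases q
      · rfl
      · exact absurd hpq hii
      · exact absurd hpq hii.symm
      · rfl
    set H : MvPolynomial (Fin 2) k := g + C a * X 0 ^ M + C b * X 1 ^ M with hH
    have hF : Fj c G M e j = rename r H := by
      unfold Fj Gj
      rw [hi, Finset.sum_pair hii, hH, map_add, map_add, map_mul, map_mul, map_pow, map_pow,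
        rename_X, rename_X, rename_C, rename_C, add_assoc, hg]
      have ei : e i = a := by rw [he]; exact if_pos rfl
      have ei' : e i' = b := by rw [he]; exact if_neg hii.symm
      rw [ei, ei']
      have r0 : r 0 = i := rfl
      have r1 : r 1 = i' := rfl
      rw [r0, r1]
      congr 1
      rw [← AlgHom.comp_apply]
      congr 1
      refine MvPolynomial.algHom_ext ?_
      intro l
      rw [AlgHom.comp_apply, aeval_X, aeval_X, hf]
      by_cases hl : l = i
      · rw [if_pos ((hmem l).2 (Or.inl hl))]
        dsimp only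
        rw [if_pos hl, rename_X, r0, hl]
      · by_cases hl' : l = i'
        · rw [if_pos ((hmem l).2 (Or.inr hl'))]
          dsimp only
          rw [if_neg hl, if_pos hl', rename_X, r1, hl']
        · rw [if_neg (fun h => ((hmem l).1 h).elim hl hl')]
          dsimp only
          rw [if_neg hl, if_neg hl', map_zero]
    intro v hv x hx hd l hl
    have eH : (g + C v) + C a * X 0 ^ M + C b * X 1 ^ M = H + C v := by
      rw [hH]
      ring
    have hz := hB₂ ⟨v, hv⟩ b (hvb v hv) (x ∘ r) (by
      show aeval (x ∘ r) ((g + C v) + C a * X 0 ^ M + C b * X 1 ^ M) = 0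
      rw [eH, map_add, ← MvPolynomial.algebraMap_eq, AlgHom.commutes, ← hx, hF, aeval_rename])
      (by
      intro q
      show aeval (x ∘ r) (pderiv q ((g + C v) + C a * X 0 ^ M + C b * X 1 ^ M)) = 0
      rw [eH, map_add, pderiv_C, add_zero]
      have h3 := hd (r q)
      rw [hF, pderiv_rename hrinj, aeval_rename] at h3
      exact h3)
    rcases (hmem l).1 hl with h | h
    · have := congrFun hz 0
      rw [h]
      exact this
    · have := congrFun hz 1
      rw [h]
      exact this

theorem step [CharZero k] [IsAlgClosed k] (h2 : BE2Stmt) (h1 : BE1Stmt) (c : σ → σ)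
    (G : MvPolynomial σ k) (M : ℕ) (hM : 2 ≤ M) (hG : G.totalDegree < M) (hG0 : coeff 0 G = 0)
    (hc : ∀ j, (Finset.univ.filter fun i => c i = j).card ≤ 2) (J : Finset σ) :
    ∃ e : σ → k, (∀ i, e i ≠ 0) ∧ ∀ x : σ → ℂ,
      (∀ j ∈ J, ∀ i, aeval x (pderiv i (Fj c G M e j)) = 0) →
      ∑ j ∈ J, aeval x (Fj c G M e j) = 0 → ∀ i, c i ∈ J → x i = 0 := by
  classical
  induction J using Finset.induction_on with
  | empty => exact ⟨fun _ => 1, fun _ => one_ne_zero, fun x _ _ i hi => absurd hi (Finset.notMem_empty _)⟩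
  | insert j J hjJ ih =>
    obtain ⟨e, he0, he⟩ := ih
    obtain ⟨T, hT⟩ := Pool.Agent.H75.Mono.sard (R := ℂ) (∑ j' ∈ J, Fj c G M e j')
    obtain ⟨en, hen0, hen⟩ := loc h2 h1 c G M hM hG j (hc j) T
    refine ⟨fun i => if c i = j then en i else e i, ?_, ?_⟩
    · intro i
      dsimp only
      split_ifs
      · exact hen0 i
      · exact he0 i
    have hFj : Fj c G M (fun i => if c i = j then en i else e i) j = Fj c G M en j := by
      refine Fj_congr c G M _ _ j ?_
      intro i hi
      exact if_pos hi
    have hFJ : ∀ j' ∈ J, Fj c G M (fun i => if c i = j then en i else e i) j'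
        = Fj c G M e j' := by
      intro j' hj'
      refine Fj_congr c G M _ _ j' ?_
      intro i hi
      refine if_neg ?_
      rintro rfl
      rw [hi] at hjJ
      exact hjJ hj'
    intro x hd hs
    rw [Finset.sum_insert hjJ, hFj] at hs
    have hs' : ∑ j' ∈ J, aeval x (Fj c G M (fun i => if c i = j then en i else e i) j')
        = ∑ j' ∈ J, aeval x (Fj c G M e j') := by
      refine Finset.sum_congr rfl ?_
      intro j' hj'
      rw [hFJ j' hj']
    rw [hs'] at hs
    have hdj : ∀ i, aeval x (pderiv i (Fj c G M en j)) = 0 := by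
      intro i
      rw [← hFj]
      exact hd j (Finset.mem_insert_self _ _) i
    have hdJ : ∀ j' ∈ J, ∀ i, aeval x (pderiv i (Fj c G M e j')) = 0 := by
      intro j' hj' i
      rw [← hFJ j' hj']
      exact hd j' (Finset.mem_insert_of_mem hj') i
    obtain ⟨v, hv, hxv⟩ := hT x (by
      intro i
      rw [map_sum, map_sum]
      exact Finset.sum_eq_zero (fun j' hj' => hdJ j' hj' i))
    rw [map_sum] at hxv
    have hz : ∀ i, c i = j → x i = 0 := by
      refine hen v hv x ?_ hdj
      rw [← hxv]
      exact hs
    have hz0 : aeval x (Fj c G M en j) = 0 :=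
      ev_Fj_zero c G M (by omega) hG0 en j x hz
    rw [hz0, zero_add] at hs
    have hJ := he x hdJ hs
    intro i hi
    rcases Finset.mem_insert.1 hi with h | h
    · exact hz i h
    · exact hJ i h

end TSBAux

open MvPolynomial TSBAux in
theorem TSB (h2 : BE2Stmt) (h1 : BE1Stmt) : TSBStmt := by
  intro k _ _ _ _ σ _ _ c G M hc hG0 hB hM hG
  obtain ⟨e, he0, he⟩ := step h2 h1 c G M hM hG hG0 hc Finset.univ
  refine ⟨e, he0, ?_⟩
  intro x hx hd
  have hsum := sum_Fj c G M hG0 hB e
  funext i
  refine he x ?_ ?_ i (Finset.mem_univ _)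
  · intro j _ l
    by_cases hl : c l = j
    · have h3 := hd l
      rw [← hsum, map_sum, map_sum, Finset.sum_eq_single (c l)] at h3
      · rw [← hl]
        exact h3
      · intro j' _ hj'
        rw [pd_Fj c G M e j' l (fun h => hj' h.symm), map_zero]
      · intro h
        exact absurd (Finset.mem_univ _) h
    · rw [pd_Fj c G M e j l hl, map_zero]
  · rw [← map_sum, hsum]
    exact hx

end Pool.Agent.H87.IS
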